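import Pool.Agent.TH569.HP.Wrap

/-!
# The Singer-Hopf sign in dimension six: curvature operator nonpositive on hyperplanes

At a point of a Riemannian six-manifold where the curvature operator is at most `-κ` (`κ ≥ 0`) on
`Λ² H` for every hyperplane `H` of the tangent space (it may be positive on nondegenerate
bivectors), the Gauss-Bonnet-Chern integrand is at most its value for constant curvature `-κ`. So a
closed six-manifold whose curvature operator is nonpositive on `Λ² H` for all hyperplanes `H` has
`-χ ≥ 0`.

The proof is in `Pool/Agent/TH569/HP/`. A negative direction `Z` of such a tensor `R` (signs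
changed) is a nondegenerate bivector and `P = R + (2 / a) R(Z, ·)²`, `a = -R(Z, Z)`, is positive
definite, since the cubic `Pf (t Z + X)` has a real root. Maximising `η(Z)² / P⁻¹(η, η)` over the
decomposable forms `η = p ∧ q`, the first order condition gives a degenerate bivector whose
curvature shows that `R` is nonnegative on the hyperplane `η = 0` of `Λ² V`, and the theorem with
one decomposable bad direction applies.
-/

set_option autoImplicit false

namespace Pool.Agent.TH569.Old.HyperplaneOperatorDimSix

open Hopf6 MeasureTheory Pool.Agent.TH569.HP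

/-- **The Singer-Hopf sign in dimension six** for a curvature operator that is nonpositive on the
bivectors of every hyperplane. -/
theorem result :
    (∀ (V : Type) [NormedAddCommGroup V] [InnerProductSpace ℝ V]
      (e : OrthonormalBasis (Fin 6) ℝ V) (R : V → V → V → V → ℝ), AlgCurv R →
      ∀ κ : ℝ, 0 ≤ κ → (∀ H : Submodule ℝ V, Module.finrank ℝ H = 5 → OpLE R κ H) →
        Hopf6.gbc e R ≤ -(roundGB κ)) ∧
    (∀ (M : Type) [MeasurableSpace M] (μ : Measure M) [IsFiniteMeasure μ] (K : CurvField M)
      (κ : ℝ), 0 ≤ κ →
      (∀ p, ∀ H : Submodule ℝ (K.V p), Module.finrank ℝ H = 5 → OpLE (K.R p) κ H) →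
      Integrable K.gbc μ → roundGB κ * μ.real Set.univ ≤ -∫ p, K.gbc p ∂μ) := by
  refine ⟨fun V _ _ e R hR κ hκ hop => hyper_point e hR hκ hop, ?_⟩
  intro M _ μ _ K κ hκ h hint
  have h1 : ∀ p, K.gbc p ≤ -(roundGB κ) := fun p => hyper_point (K.e p) (K.curv p) hκ (h p)
  have h2 : ∫ p, K.gbc p ∂μ ≤ ∫ _, -(roundGB κ) ∂μ :=
    integral_mono hint (integrable_const _) h1
  rw [integral_const, smul_eq_mul] at h2
  linarith

end Pool.Agent.TH569.Old.HyperplaneOperatorDimSix
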